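import Mathlib

/-!
# Lebesgue null sets are null for the generalized-strip outer measure

We prove that every Lebesgue null subset of `ℝ^d` has `γ`-measure zero, where `γ` is the outer
measure built from generalized strips.  The proof uses a (nearly optimal) semi-discrete optimal
transport potential.
-/

open MeasureTheory Set Metric Filter Topology
open scoped ENNReal NNReal

namespace Pool.Agent.Results.MP_0a22a9_gt.NullSetsAreGammaNull

/-- Euclidean `d`-space. -/
abbrev E (d : ℕ) : Type := EuclideanSpace ℝ (Fin d)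

/-- `f` is polyhedral: it is the pointwise maximum of a nonempty finite family of affine functions
`x ↦ ⟨a, x⟩ + b`, the family being given by the finite set `s` of the pairs `(a, b)`. -/
def IsPolyhedral {d : ℕ} (f : E d → ℝ) : Prop :=
  ∃ (s : Finset (E d × ℝ)) (hs : s.Nonempty),
    ∀ x, f x = s.sup' hs (fun p => inner ℝ p.1 x + p.2)

/-- `y` minimises `z ↦ f z + |x - z|² / 2`. -/
def IsProx {d : ℕ} (f : E d → ℝ) (x y : E d) : Prop :=
  ∀ z, f y + ‖x - y‖ ^ 2 / 2 ≤ f z + ‖x - z‖ ^ 2 / 2

/-- The proximal map: `prox f x` is the minimiser of `z ↦ f z + |x - z|² / 2` (for polyhedral `f`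
it exists and is unique, see `existsUnique_isProx`). -/
noncomputable def prox {d : ℕ} (f : E d → ℝ) (x : E d) : E d :=
  Classical.epsilon (IsProx f x)

/-- The generalized strip `S(f)`: the set of all `x` such that `f` is not differentiable at
`prox f x`. -/
def strip {d : ℕ} (f : E d → ℝ) : Set (E d) :=
  {x | ¬ DifferentiableAt ℝ f (prox f x)}

/-- `S` is a generalized strip: `S = S(f)` for some polyhedral `f`. -/
def IsGeneralizedStrip {d : ℕ} (S : Set (E d)) : Prop :=
  ∃ f : E d → ℝ, IsPolyhedral f ∧ S = strip f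

/-- The Lipschitz constant of `f`, as an extended nonnegative real. -/
noncomputable def lipConst {d : ℕ} (f : E d → ℝ) : ℝ≥0∞ :=
  ⨅ (K : ℝ≥0) (_ : LipschitzWith K f), (K : ℝ≥0∞)

/-- The width of a generalized strip `S`: `2 inf {Lip f : f polyhedral, S = S(f)}`. -/
noncomputable def width {d : ℕ} (S : Set (E d)) : ℝ≥0∞ :=
  2 * ⨅ (f : E d → ℝ) (_ : IsPolyhedral f) (_ : S = strip f), lipConst f

/-- The outer measure `γ`: the infimum of `∑ w(S_i)` over all sequences of generalized strips
`S_i` covering `A`. -/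
noncomputable def gamma {d : ℕ} (A : Set (E d)) : ℝ≥0∞ :=
  ⨅ (S : ℕ → Set (E d)) (_ : ∀ i, IsGeneralizedStrip (S i)) (_ : A ⊆ ⋃ i, S i),
    ∑' i, width (S i)

/-! ### Existence and uniqueness of the proximal point -/

lemma IsPolyhedral.continuous {d : ℕ} {f : E d → ℝ} (hf : IsPolyhedral f) : Continuous f := by
  obtain ⟨s, hs, h⟩ := hf
  have : f = fun x => s.sup' hs (fun p => inner ℝ p.1 x + p.2) := funext h
  rw [this]
  refine Continuous.finset_sup'_apply hs ?_
  intro p _
  fun_prop

lemma exists_isProx {d : ℕ} {f : E d → ℝ} (hf : IsPolyhedral f) (x : E d) :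
    ∃ y, IsProx f x y := by
  have hcont := hf.continuous
  obtain ⟨s, hs, h⟩ := hf
  obtain ⟨p, hp⟩ := id hs
  have hlow : ∀ z, -(‖p.1‖ * ‖z‖) + p.2 ≤ f z := by
    intro z
    rw [h z]
    have h1 : inner ℝ p.1 z + p.2 ≤ s.sup' hs (fun p => inner ℝ p.1 z + p.2) :=
      Finset.le_sup' (fun p : E d × ℝ => inner ℝ p.1 z + p.2) hp
    have h2 : -(‖p.1‖ * ‖z‖) ≤ inner ℝ p.1 z := by
      have := abs_real_inner_le_norm p.1 z
      have := neg_abs_le (inner ℝ p.1 z)
      linarith
    linarith
  have hφ : Continuous (fun z => f z + ‖x - z‖ ^ 2 / 2) := by fun_prop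
  have hlim : Tendsto (fun z => f z + ‖x - z‖ ^ 2 / 2) (cocompact (E d)) atTop := by
    have h1 : Tendsto (fun t : ℝ => t * (t / 4 - ‖p.1‖) + (p.2 - ‖x‖ ^ 2 / 2)) atTop atTop := by
      apply tendsto_atTop_add_const_right
      apply Tendsto.atTop_mul_atTop₀ tendsto_id
      apply tendsto_atTop_add_const_right
      exact tendsto_id.atTop_div_const (by norm_num)
    have h2 := h1.comp (tendsto_norm_cocompact_atTop (E := E d))
    refine tendsto_atTop_mono ?_ h2
    intro z
    simp only [Function.comp]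
    have h3 := hlow z
    have h4 : ‖z‖ ≤ ‖x‖ + ‖x - z‖ := by
      have : ‖x - (x - z)‖ ≤ ‖x‖ + ‖x - z‖ := norm_sub_le _ _
      simpa using this
    have h5 : ‖z‖ ^ 2 ≤ 2 * ‖x‖ ^ 2 + 2 * ‖x - z‖ ^ 2 := by
      nlinarith [norm_nonneg z, norm_nonneg x, norm_nonneg (x - z),
        sq_nonneg (‖x‖ - ‖x - z‖)]
    nlinarith
  obtain ⟨y, hy⟩ := hφ.exists_forall_le hlim
  exact ⟨y, hy⟩

lemma IsPolyhedral.convexOn {d : ℕ} {f : E d → ℝ} (hf : IsPolyhedral f) :
    ConvexOn ℝ univ f := by
  obtain ⟨s, hs, h⟩ := hf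
  refine ⟨convex_univ, ?_⟩
  intro x _ y _ a b ha hb hab
  rw [h]
  apply Finset.sup'_le
  intro p hp
  have h1 : inner ℝ p.1 x + p.2 ≤ f x := by
    rw [h]; exact Finset.le_sup' (fun p : E d × ℝ => inner ℝ p.1 x + p.2) hp
  have h2 : inner ℝ p.1 y + p.2 ≤ f y := by
    rw [h]; exact Finset.le_sup' (fun p : E d × ℝ => inner ℝ p.1 y + p.2) hp
  rw [inner_add_right, inner_smul_right, inner_smul_right, smul_eq_mul, smul_eq_mul]
  have h3 : a * inner ℝ p.1 x + b * inner ℝ p.1 y + p.2
      = a * (inner ℝ p.1 x + p.2) + b * (inner ℝ p.1 y + p.2) := by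
    have : p.2 = (a + b) * p.2 := by rw [hab, one_mul]
    linear_combination this
  rw [h3]
  have := mul_le_mul_of_nonneg_left h1 ha
  have := mul_le_mul_of_nonneg_left h2 hb
  linarith

/-- Sanity check: for polyhedral `f` the proximal point exists and is unique. -/
theorem existsUnique_isProx {d : ℕ} {f : E d → ℝ} (hf : IsPolyhedral f) (x : E d) :
    ∃! y, IsProx f x y := by
  obtain ⟨y, hy⟩ := exists_isProx hf x
  refine ⟨y, hy, ?_⟩
  intro z hz
  by_contra hne
  have hc := hf.convexOn.2 (mem_univ y) (mem_univ z) (by norm_num : (0 : ℝ) ≤ 1 / 2)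
    (by norm_num : (0 : ℝ) ≤ 1 / 2) (by norm_num)
  have h1 := hy ((1 / 2 : ℝ) • y + (1 / 2 : ℝ) • z)
  have h2 := hz ((1 / 2 : ℝ) • y + (1 / 2 : ℝ) • z)
  have h3 : ‖x - ((1 / 2 : ℝ) • y + (1 / 2 : ℝ) • z)‖ ^ 2
      = ‖x - y‖ ^ 2 / 2 + ‖x - z‖ ^ 2 / 2 - ‖y - z‖ ^ 2 / 4 := by
    have e1 : x - ((1 / 2 : ℝ) • y + (1 / 2 : ℝ) • z)
        = (1 / 2 : ℝ) • ((x - y) + (x - z)) := by
      module
    have e2 : y - z = (x - z) - (x - y) := by abel
    rw [e1, e2, norm_smul, mul_pow]
    generalize x - y = u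
    generalize x - z = v
    rw [norm_add_sq_real, norm_sub_sq_real, real_inner_comm v u]
    norm_num
    ring
  have h4 : 0 < ‖y - z‖ ^ 2 := by
    have : 0 < ‖y - z‖ := norm_pos_iff.mpr (sub_ne_zero.mpr (Ne.symm hne))
    positivity
  simp only [smul_eq_mul] at hc
  rw [h3] at h1 h2
  linarith

lemma isProx_prox {d : ℕ} {f : E d → ℝ} (hf : IsPolyhedral f) (x : E d) :
    IsProx f x (prox f x) :=
  Classical.epsilon_spec (exists_isProx hf x)

/-- If the polyhedral function `max_i (⟨V i, ·⟩ + c i)` is differentiable at the proximal point of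
`x`, then this point is `x - V i` for some active index `i`. -/
lemma diff_case {d : ℕ} {ι : Type} [Fintype ι] [Nonempty ι] (V : ι → E d) (c : ι → ℝ)
    (f : E d → ℝ)
    (hf : ∀ x, f x = Finset.univ.sup' Finset.univ_nonempty (fun i => inner ℝ (V i) x + c i))
    (x y : E d) (hy : IsProx f x y) (hd : DifferentiableAt ℝ f y) :
    ∃ i, y = x - V i ∧ f y = inner ℝ (V i) y + c i := by
  obtain ⟨i, -, hi⟩ := Finset.exists_mem_eq_sup' (Finset.univ_nonempty (α := ι))
    (fun i => inner ℝ (V i) y + c i)
  have hfy : f y = inner ℝ (V i) y + c i := by rw [hf, hi]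
  refine ⟨i, ?_, hfy⟩
  have hle : ∀ z, inner ℝ (V i) z + c i ≤ f z := by
    intro z
    rw [hf]
    exact Finset.le_sup' (fun i => inner ℝ (V i) z + c i) (Finset.mem_univ i)
  have hfd := hd.hasFDerivAt
  -- the difference with the active affine function has a minimum at `y`
  have h1 : HasFDerivAt (fun z => f z - (inner ℝ (V i) z + c i))
      (fderiv ℝ f y - innerSL ℝ (V i)) y := by
    have h2 : HasFDerivAt (fun z => inner ℝ (V i) z + c i) (innerSL ℝ (V i)) y := by
      have := (innerSL ℝ (V i)).hasFDerivAt (x := y)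
      simpa using this.add_const (c i)
    exact hfd.sub h2
  have hmin1 : IsLocalMin (fun z => f z - (inner ℝ (V i) z + c i)) y := by
    apply Filter.Eventually.of_forall
    intro z
    have := hle z
    simp only
    rw [hfy]
    linarith
  have hz1 := hmin1.hasFDerivAt_eq_zero h1
  have h3 : HasFDerivAt (fun z => f z + ‖x - z‖ ^ 2 / 2)
      (fderiv ℝ f y + (1 / 2 : ℝ) • (2 • (innerSL ℝ (x - y)).comp
        (-(ContinuousLinearMap.id ℝ (E d))))) y := by
    have h4 : HasFDerivAt (fun z : E d => x - z) (-(ContinuousLinearMap.id ℝ (E d))) y := by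
      simpa using (hasFDerivAt_id y).const_sub x
    have h5 := h4.norm_sq
    have h6 := h5.const_mul (1 / 2 : ℝ)
    have h7 := hfd.add h6
    refine h7.congr_of_eventuallyEq ?_
    apply Filter.Eventually.of_forall
    intro z
    simp only [Pi.add_apply]
    ring
  have hmin2 : IsLocalMin (fun z => f z + ‖x - z‖ ^ 2 / 2) y := by
    apply Filter.Eventually.of_forall
    intro z
    exact hy z
  have hz2 := hmin2.hasFDerivAt_eq_zero h3
  have hz3 : fderiv ℝ f y = innerSL ℝ (V i) := sub_eq_zero.mp hz1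
  rw [hz3] at hz2
  have h8 : ∀ w, inner ℝ (V i) w - inner ℝ (x - y) w = 0 := by
    intro w
    have := congrArg (fun L => L w) hz2
    simp at this
    rw [inner_sub_left]
    linarith
  have h9 : inner ℝ (V i - (x - y)) (V i - (x - y)) = 0 := by
    rw [inner_sub_left]
    exact h8 _
  have h10 : V i - (x - y) = 0 := inner_self_eq_zero.mp h9
  have h11 : V i = x - y := sub_eq_zero.mp h10
  rw [h11]
  abel

/-! ### A nearly optimal semi-discrete transport potential -/

lemma transport {d : ℕ} {ι : Type} [Fintype ι] [Nonempty ι] (V : ι → E d) (U : Set (E d))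
    (hU : IsCompact U) (t η : ℝ) (ht : 0 < t) (hη : 0 < η) :
    ∃ b : ι → ℝ, ∀ i,
      (volume (U ∩ {x | ∀ j, j ≠ i → inner ℝ (V j) x - b j + t ≤ inner ℝ (V i) x - b i})).toReal
        ≤ (volume U).toReal / (Fintype.card ι) + η := by
  classical
  set F : (ι → ℝ) → E d → ℝ := fun b x =>
    Finset.univ.sup' Finset.univ_nonempty (fun i => inner ℝ (V i) x - b i) with hF
  have hFcont : ∀ b, Continuous (F b) := by
    intro b
    refine Continuous.finset_sup'_apply _ ?_
    intro i _
    fun_prop
  have hFint : ∀ b, IntegrableOn (F b) U volume := fun b =>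
    (hFcont b).continuousOn.integrableOn_compact hU
  set m : ℝ := (volume U).toReal / (Fintype.card ι) with hm
  set Φ : (ι → ℝ) → ℝ := fun b => (∫ x in U, F b x) + m * ∑ i, b i with hΦ
  have hcard : (0 : ℝ) < Fintype.card ι := by exact_mod_cast Fintype.card_pos
  have hUfin : volume U ≠ ∞ := hU.measure_lt_top.ne
  -- the functional is bounded below
  set L : ℝ := ∫ x in U, (∑ i, inner ℝ (V i) x) / (Fintype.card ι) with hL
  have hbelow : ∀ b, L ≤ Φ b := by
    intro b
    have hint1 : IntegrableOn (fun x => (∑ i, inner ℝ (V i) x) / (Fintype.card ι : ℝ)) U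
        volume := by
      apply ContinuousOn.integrableOn_compact hU
      fun_prop
    have hint2 : IntegrableOn (fun _ : E d => (∑ i, b i) / (Fintype.card ι : ℝ)) U volume :=
      (continuous_const.continuousOn).integrableOn_compact hU
    have h1 : ∀ x, (∑ i, inner ℝ (V i) x) / (Fintype.card ι : ℝ)
        - (∑ i, b i) / (Fintype.card ι : ℝ) ≤ F b x := by
      intro x
      rw [← sub_div, ← Finset.sum_sub_distrib, div_le_iff₀ hcard]
      have h2 : ∀ i ∈ (Finset.univ : Finset ι), inner ℝ (V i) x - b i ≤ F b x := by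
        intro i hi
        exact Finset.le_sup' (fun i => inner ℝ (V i) x - b i) hi
      have h3 := Finset.sum_le_card_nsmul _ _ _ h2
      simp only [nsmul_eq_mul, Finset.card_univ] at h3
      linarith
    have h4 : ∫ x in U, ((∑ i, inner ℝ (V i) x) / (Fintype.card ι : ℝ)
        - (∑ i, b i) / (Fintype.card ι : ℝ)) ≤ ∫ x in U, F b x :=
      integral_mono (hint1.sub hint2) (hFint b) h1
    rw [integral_sub hint1 hint2] at h4
    simp only [integral_const, MeasurableSet.univ, measureReal_restrict_apply, univ_inter,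
      smul_eq_mul] at h4
    have h5 : (volume.real U) * ((∑ i, b i) / (Fintype.card ι : ℝ)) = m * ∑ i, b i := by
      rw [hm, Measure.real]; ring
    rw [h5] at h4
    simp only [hΦ, hL]
    linarith
  have hbdd : BddBelow (range Φ) := ⟨L, by rintro _ ⟨b, rfl⟩; exact hbelow b⟩
  have hlt : (⨅ b, Φ b) < (⨅ b, Φ b) + t * η := by
    have := mul_pos ht hη
    linarith
  obtain ⟨b, hb⟩ := exists_lt_of_ciInf_lt hlt
  refine ⟨b, ?_⟩
  intro i
  set W : Set (E d) := {x | ∀ j, j ≠ i → inner ℝ (V j) x - b j + t ≤ inner ℝ (V i) x - b i}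
    with hW
  have hWmeas : MeasurableSet W := by
    have : W = ⋂ j, ⋂ (_ : j ≠ i), {x | inner ℝ (V j) x - b j + t ≤ inner ℝ (V i) x - b i} := by
      ext x; simp [hW]
    rw [this]
    apply IsClosed.measurableSet
    apply isClosed_iInter
    intro j
    apply isClosed_iInter
    intro _
    apply isClosed_le <;> fun_prop
  set b' : ι → ℝ := Function.update b i (b i + t) with hb'
  have hb'i : b' i = b i + t := by simp [hb']
  have hb'j : ∀ j, j ≠ i → b' j = b j := by
    intro j hj; simp [hb', hj]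
  have h1 : (⨅ b, Φ b) ≤ Φ b' := ciInf_le hbdd b'
  have h2 : Φ b - t * η ≤ Φ b' := by linarith
  have hsum : ∑ j, b' j = (∑ j, b j) + t := by
    rw [hb', Finset.sum_update_of_mem (Finset.mem_univ i)]
    have := Finset.sum_erase_add Finset.univ b (Finset.mem_univ i)
    rw [Finset.sdiff_singleton_eq_erase]
    linarith
  -- pointwise comparison
  have hpt : ∀ x, W.indicator (fun _ => t) x ≤ F b x - F b' x := by
    intro x
    have hmono : F b' x ≤ F b x := by
      apply Finset.sup'_le
      intro j hj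
      refine le_trans ?_ (Finset.le_sup' (fun i => inner ℝ (V i) x - b i) hj)
      by_cases hji : j = i
      · subst hji
        simp only [hb'i]
        linarith
      · simp only [hb'j j hji]
        exact le_refl _
    by_cases hx : x ∈ W
    · rw [indicator_of_mem hx]
      have h3 : inner ℝ (V i) x - b i ≤ F b x :=
        Finset.le_sup' (fun i => inner ℝ (V i) x - b i) (Finset.mem_univ i)
      have h4 : F b' x ≤ inner ℝ (V i) x - b i - t := by
        apply Finset.sup'_le
        intro j _
        by_cases hji : j = i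
        · subst hji
          simp only [hb'i]
          linarith
        · simp only [hb'j j hji]
          have := hx j hji
          linarith
      linarith
    · rw [indicator_of_notMem hx]
      linarith
  have hint3 : IntegrableOn (W.indicator (fun _ => t)) U volume := by
    apply Integrable.indicator _ hWmeas
    exact (continuous_const.continuousOn).integrableOn_compact hU
  have h3 : ∫ x in U, W.indicator (fun _ => t) x ≤ ∫ x in U, (F b x - F b' x) :=
    integral_mono hint3 ((hFint b).sub (hFint b')) hpt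
  rw [integral_sub (hFint b) (hFint b'), integral_indicator hWmeas] at h3
  simp only [integral_const, MeasurableSet.univ, measureReal_restrict_apply, univ_inter,
      smul_eq_mul] at h3
  have h4 : (volume.restrict U).real W = (volume (U ∩ W)).toReal := by
    rw [measureReal_restrict_apply hWmeas, Measure.real, inter_comm]
  rw [h4] at h3
  have h5 : Φ b - Φ b' = (∫ x in U, F b x) - (∫ x in U, F b' x) - m * t := by
    simp only [hΦ]
    rw [hsum]
    ring
  have h6 : (volume (U ∩ W)).toReal * t ≤ (m + η) * t := by nlinarith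
  exact le_of_mul_le_mul_right h6 ht

/-! ### Covering a compact set of small volume by one generalized strip -/

/-- The grid points `h k`, `k ∈ {0, …, N - 1}^d`. -/
noncomputable def grid (d N : ℕ) (h : ℝ) (k : Fin d → Fin N) : E d :=
  WithLp.toLp 2 (fun i => h * ((k i : ℕ) : ℝ))

lemma grid_norm {d N : ℕ} {h : ℝ} (hh : 0 ≤ h) (k : Fin d → Fin N) :
    ‖grid d N h k‖ ≤ √d * (h * N) := by
  rw [EuclideanSpace.norm_eq]
  have h1 : ∑ i, ‖(grid d N h k) i‖ ^ 2 ≤ ∑ _i : Fin d, (h * N) ^ 2 := by
    apply Finset.sum_le_sum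
    intro i _
    have h2 : (grid d N h k) i = h * ((k i : ℕ) : ℝ) := rfl
    rw [h2, Real.norm_eq_abs, sq_abs]
    have h3 : ((k i : ℕ) : ℝ) ≤ N := by exact_mod_cast (k i).2.le
    have h4 : (0 : ℝ) ≤ ((k i : ℕ) : ℝ) := by positivity
    have h5 : h * ((k i : ℕ) : ℝ) ≤ h * N := mul_le_mul_of_nonneg_left h3 hh
    have h6 : 0 ≤ h * ((k i : ℕ) : ℝ) := by positivity
    nlinarith
  simp only [Finset.sum_const, Finset.card_univ, Fintype.card_fin, nsmul_eq_mul] at h1
  calc √(∑ i, ‖(grid d N h k) i‖ ^ 2) ≤ √(d * (h * N) ^ 2) := Real.sqrt_le_sqrt h1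
    _ = √d * (h * N) := by
      rw [Real.sqrt_mul (by positivity), Real.sqrt_sq (by positivity)]

lemma grid_sep {d N : ℕ} {h : ℝ} (hh : 0 ≤ h) (k l : Fin d → Fin N) (hkl : k ≠ l) :
    h ≤ ‖grid d N h k - grid d N h l‖ := by
  obtain ⟨i, hi⟩ := Function.ne_iff.mp hkl
  have h1 : ‖(grid d N h k - grid d N h l) i‖ ≤ ‖grid d N h k - grid d N h l‖ :=
    PiLp.norm_apply_le _ i
  refine le_trans ?_ h1
  have h2 : (grid d N h k - grid d N h l) i = h * (((k i : ℕ) : ℝ) - ((l i : ℕ) : ℝ)) := by
    have : (grid d N h k - grid d N h l) i = h * ((k i : ℕ) : ℝ) - h * ((l i : ℕ) : ℝ) := rfl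
    rw [this]; ring
  rw [h2, norm_mul, Real.norm_eq_abs, Real.norm_eq_abs, abs_of_nonneg hh]
  have h3 : (1 : ℝ) ≤ |((k i : ℕ) : ℝ) - ((l i : ℕ) : ℝ)| := by
    have h4 : ((k i : ℕ) : ℤ) - ((l i : ℕ) : ℤ) ≠ 0 := by
      intro h5
      apply hi
      apply Fin.ext
      omega
    have h5 : (1 : ℤ) ≤ |((k i : ℕ) : ℤ) - ((l i : ℕ) : ℤ)| := Int.one_le_abs h4
    exact_mod_cast h5
  nlinarith

/-- **Main step.** A compact set whose volume is smaller than that of a ball of radius
`ε / (4 √d)` is contained in the generalized strip of a polyhedral `ε`-Lipschitz function. -/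
theorem cover_compact {d : ℕ} (hd : 0 < d) (ε : ℝ) (hε : 0 < ε) (C : Set (E d))
    (hC : IsCompact C) (hvol : volume C < volume (ball (0 : E d) (ε / (4 * √d)))) :
    ∃ f : E d → ℝ, IsPolyhedral f ∧ LipschitzWith (Real.toNNReal ε) f ∧ C ⊆ strip f := by
  classical
  have hsd : 0 < √(d : ℝ) := Real.sqrt_pos.mpr (by exact_mod_cast hd)
  -- a compact neighbourhood of small volume
  obtain ⟨r, hr, hrvol⟩ : ∃ r : ℝ, 0 < r ∧
      volume (cthickening r C) < volume (ball (0 : E d) (ε / (4 * √d))) := by
    have h1 : Tendsto (fun r => volume (cthickening r C)) (𝓝 0) (𝓝 (volume C)) :=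
      tendsto_measure_cthickening_of_isCompact hC
    have h2 : ∀ᶠ r in 𝓝 (0 : ℝ), volume (cthickening r C)
        < volume (ball (0 : E d) (ε / (4 * √d))) := h1.eventually (gt_mem_nhds hvol)
    have h3 : ∀ᶠ r in 𝓝[>] (0 : ℝ), volume (cthickening r C)
        < volume (ball (0 : E d) (ε / (4 * √d))) := h2.filter_mono nhdsWithin_le_nhds
    have h4 : ∀ᶠ r in 𝓝[>] (0 : ℝ), 0 < r := eventually_mem_nhdsWithin
    obtain ⟨r, hr1, hr2⟩ := (h4.and h3).exists
    exact ⟨r, hr1, hr2⟩
  set U : Set (E d) := cthickening r C with hU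
  have hUc : IsCompact U := hC.cthickening
  -- the grid
  obtain ⟨N, hN⟩ : ∃ N : ℕ, ε / (4 * √d * r) ≤ N := exists_nat_ge _
  have hNpos : 0 < N := by
    have : (0 : ℝ) < ε / (4 * √d * r) := by positivity
    have : (0 : ℝ) < N := lt_of_lt_of_le this hN
    exact_mod_cast this
  have : NeZero N := ⟨hNpos.ne'⟩
  have : Nonempty (Fin N) := ⟨⟨0, hNpos⟩⟩
  have hNr : (0 : ℝ) < N := by exact_mod_cast hNpos
  set h : ℝ := ε / (√d * N) with hh
  have hhpos : 0 < h := by positivity
  have hh4 : h / 4 ≤ r := by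
    rw [hh, div_div, div_le_iff₀ (by positivity)]
    rw [div_le_iff₀ (by positivity)] at hN
    linarith
  set V : (Fin d → Fin N) → E d := grid d N h with hV
  have hVn : ∀ k, ‖V k‖ ≤ ε := by
    intro k
    have := grid_norm hhpos.le k
    have h1 : √(d : ℝ) * (h * N) = ε := by
      rw [hh]; field_simp
    rw [h1] at this
    exact this
  -- volumes
  have hcardι : (Fintype.card (Fin d → Fin N) : ℝ) = (N : ℝ) ^ d := by
    simp
  have hball : (volume (ball (0 : E d) (h / 4))).toReal
      = (volume (ball (0 : E d) (ε / (4 * √d)))).toReal / (N : ℝ) ^ d := by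
    rw [Measure.addHaar_ball_of_pos volume (0 : E d) (by positivity : 0 < h / 4),
      Measure.addHaar_ball_of_pos volume (0 : E d) (by positivity : 0 < ε / (4 * √d))]
    rw [ENNReal.toReal_mul, ENNReal.toReal_mul, ENNReal.toReal_ofReal (by positivity),
      ENNReal.toReal_ofReal (by positivity)]
    simp only [finrank_euclideanSpace, Fintype.card_fin]
    rw [hh]
    have : ε / (√d * N) / 4 = ε / (4 * √d) / N := by
      field_simp
    rw [this, div_pow (ε / (4 * √d)) (N : ℝ) d]
    ring
  have hfin1 : volume (ball (0 : E d) (ε / (4 * √d))) ≠ ∞ := measure_ball_lt_top.ne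
  have hreal : (volume U).toReal < (volume (ball (0 : E d) (ε / (4 * √d)))).toReal :=
    (ENNReal.toReal_lt_toReal hUc.measure_lt_top.ne hfin1).mpr hrvol
  have hNd : (0 : ℝ) < (N : ℝ) ^ d := by positivity
  set η : ℝ := ((volume (ball (0 : E d) (h / 4))).toReal - (volume U).toReal / (N : ℝ) ^ d) / 2
    with hη
  have hηpos : 0 < η := by
    rw [hη, hball]
    have : (volume U).toReal / (N : ℝ) ^ d
        < (volume (ball (0 : E d) (ε / (4 * √d)))).toReal / (N : ℝ) ^ d :=
      div_lt_div_of_pos_right hreal hNd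
    linarith
  obtain ⟨b, hb⟩ := transport V U hUc (h ^ 2 / 4) η (by positivity) hηpos
  -- the polyhedral function
  set c : (Fin d → Fin N) → ℝ := fun k => ‖V k‖ ^ 2 / 2 - b k with hc
  set f : E d → ℝ := fun x =>
    Finset.univ.sup' Finset.univ_nonempty (fun k => inner ℝ (V k) x + c k) with hf
  have hpoly : IsPolyhedral f := by
    refine ⟨Finset.univ.image (fun k => (V k, c k)), Finset.univ_nonempty.image _, ?_⟩
    intro x
    rw [Finset.sup'_image]
    rfl
  refine ⟨f, hpoly, ?_, ?_⟩
  · apply LipschitzWith.of_dist_le_mul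
    intro x y
    have key : ∀ x y, f x - f y ≤ ε * ‖x - y‖ := by
      intro x y
      rw [sub_le_iff_le_add]
      apply Finset.sup'_le
      intro k hk
      have h1 : inner ℝ (V k) y + c k ≤ f y :=
        Finset.le_sup' (fun k => inner ℝ (V k) y + c k) hk
      have h2 : inner ℝ (V k) x = inner ℝ (V k) y + inner ℝ (V k) (x - y) := by
        rw [inner_sub_right]; ring
      have h3 : inner ℝ (V k) (x - y) ≤ ‖V k‖ * ‖x - y‖ := real_inner_le_norm _ _
      have h4 : ‖V k‖ * ‖x - y‖ ≤ ε * ‖x - y‖ :=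
        mul_le_mul_of_nonneg_right (hVn k) (norm_nonneg _)
      linarith
    rw [Real.dist_eq, dist_eq_norm, Real.coe_toNNReal _ hε.le]
    rw [abs_le]
    constructor
    · have := key y x
      rw [norm_sub_rev] at this
      linarith
    · exact key x y
  · intro x hxC
    show ¬ DifferentiableAt ℝ f (prox f x)
    intro hdiff
    obtain ⟨i, hyi, hfi⟩ := diff_case V c f (fun _ => rfl) x (prox f x) (isProx_prox hpoly x)
      hdiff
    -- the margin inequality
    have hmargin : ∀ j, inner ℝ (V j) x - b j + ‖V j - V i‖ ^ 2 / 2 ≤ inner ℝ (V i) x - b i := by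
      intro j
      have h1 : inner ℝ (V j) (prox f x) + c j ≤ f (prox f x) :=
        Finset.le_sup' (fun k => inner ℝ (V k) (prox f x) + c k) (Finset.mem_univ j)
      rw [hfi, hyi, inner_sub_right, inner_sub_right, real_inner_self_eq_norm_sq] at h1
      simp only [hc] at h1
      rw [norm_sub_sq_real]
      linarith
    have hsub : closedBall x (h / 4) ⊆ U ∩ {x | ∀ j, j ≠ i →
        inner ℝ (V j) x - b j + h ^ 2 / 4 ≤ inner ℝ (V i) x - b i} := by
      intro z hz
      have hzx : ‖z - x‖ ≤ h / 4 := by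
        rw [← dist_eq_norm]; exact hz
      refine ⟨?_, ?_⟩
      · refine mem_cthickening_of_dist_le z x r C hxC ?_
        rw [dist_eq_norm]
        linarith
      · intro j hj
        have hD : h ≤ ‖V j - V i‖ := grid_sep hhpos.le j i hj
        have h1 := hmargin j
        have h2 : inner ℝ (V j) z - inner ℝ (V i) z
            = inner ℝ (V j) x - inner ℝ (V i) x + inner ℝ (V j - V i) (z - x) := by
          rw [inner_sub_left, inner_sub_right, inner_sub_right]; ring
        have h3 : inner ℝ (V j - V i) (z - x) ≤ ‖V j - V i‖ * ‖z - x‖ :=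
          real_inner_le_norm _ _
        have h4 : ‖V j - V i‖ * ‖z - x‖ ≤ ‖V j - V i‖ * (h / 4) :=
          mul_le_mul_of_nonneg_left hzx (norm_nonneg _)
        nlinarith
    have h5 := hb i
    rw [hcardι] at h5
    have h6 : (volume (closedBall x (h / 4))).toReal ≤ (volume (U ∩ {x | ∀ j, j ≠ i →
        inner ℝ (V j) x - b j + h ^ 2 / 4 ≤ inner ℝ (V i) x - b i})).toReal := by
      apply ENNReal.toReal_mono
      · exact ((measure_mono inter_subset_left).trans_lt hUc.measure_lt_top).ne
      · exact measure_mono hsub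
    have h7 : volume (closedBall x (h / 4)) = volume (ball (0 : E d) (h / 4)) := by
      have : Nonempty (Fin d) := ⟨⟨0, hd⟩⟩
      rw [Measure.addHaar_closedBall_eq_addHaar_ball, Measure.addHaar_ball_center]
    rw [h7] at h6
    have h8 : (volume (ball (0 : E d) (h / 4))).toReal
        ≤ (volume U).toReal / (N : ℝ) ^ d + η := h6.trans h5
    rw [hη] at h8
    rw [hη] at hηpos
    linarith

/-! ### From compact sets to arbitrary null sets -/

lemma exists_compact_cover {d : ℕ} (A : Set (E d)) (hA : volume A = 0) (δ : ℝ≥0∞)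
    (hδ : δ ≠ 0) :
    ∃ D : ℕ → Set (E d), (∀ n, IsCompact (D n)) ∧ (A ⊆ ⋃ n, D n) ∧ ∑' n, volume (D n) ≤ δ := by
  classical
  obtain ⟨t, r, htc, -, -, hcov, hsum⟩ :=
    Besicovitch.exists_closedBall_covering_tsum_measure_le (volume : Measure (E d)) hδ
      (fun _ => Ioi (0 : ℝ)) A (fun x _ δ' hδ' => ⟨δ' / 2, by
        refine ⟨?_, ?_, ?_⟩
        · exact half_pos hδ'
        · exact half_pos hδ'
        · exact half_lt_self hδ'⟩)
  rw [hA, zero_add] at hsum
  have : Countable t := htc.to_subtype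
  have : Encodable t := Encodable.ofCountable t
  refine ⟨fun n => ⋃ b ∈ Encodable.decode₂ t n, closedBall (b : E d) (r b), ?_, ?_, ?_⟩
  · intro n
    have key : ∀ o : Option t,
        IsCompact (⋃ b ∈ o, closedBall (b : E d) (r b)) := by
      intro o
      rcases o with _ | b
      · have : (⋃ b ∈ (none : Option t), closedBall (b : E d) (r b)) = ∅ := by
          apply iUnion_eq_empty.mpr
          intro b
          apply iUnion_eq_empty.mpr
          intro hb
          exact absurd hb (by simp)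
        rw [this]
        exact isCompact_empty
      · have : (⋃ b' ∈ (some b : Option t), closedBall (b' : E d) (r b'))
            = closedBall (b : E d) (r b) := by
          ext z
          simp only [mem_iUnion, Option.mem_def, Option.some.injEq]
          constructor
          · rintro ⟨b', hb', hz⟩
            rw [hb']
            exact hz
          · intro hz
            exact ⟨b, rfl, hz⟩
        rw [this]
        exact isCompact_closedBall (b : E d) (r b)
    exact key _
  · rw [Encodable.iUnion_decode₂]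
    intro a ha
    obtain ⟨y, hy⟩ := mem_iUnion.mp (hcov ha)
    obtain ⟨hyt, hy2⟩ := mem_iUnion.mp hy
    exact mem_iUnion.mpr ⟨⟨y, hyt⟩, hy2⟩
  · rw [tsum_iUnion_decode₂ (fun s : Set (E d) => volume s) measure_empty
      (fun b : t => closedBall (b : E d) (r b))]
    exact hsum

lemma width_strip_le {d : ℕ} {f : E d → ℝ} (hf : IsPolyhedral f) {K : ℝ≥0}
    (hK : LipschitzWith K f) : width (strip f) ≤ 2 * K := by
  unfold width
  gcongr
  exact (iInf₂_le_of_le f hf (iInf_le _ rfl)).trans (iInf₂_le K hK)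

/-- **Every Lebesgue null set is `γ`-null** (in every dimension `d ≥ 1`). -/
theorem gamma_eq_zero {d : ℕ} (hd : 0 < d) (A : Set (E d)) (hA : volume A = 0) :
    gamma A = 0 := by
  classical
  have hsd : 0 < √(d : ℝ) := Real.sqrt_pos.mpr (by exact_mod_cast hd)
  have : Nonempty (Fin d) := ⟨⟨0, hd⟩⟩
  -- it is enough to bound `gamma A` by every positive real
  refine le_antisymm ?_ zero_le
  refine ENNReal.le_of_forall_pos_le_add ?_
  intro ε hε _
  rw [zero_add]
  -- budgets
  set e : ℕ → ℝ := fun j => (ε : ℝ) / 2 / 2 ^ (j + 1) with he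
  have hepos : ∀ j, 0 < e j := by
    intro j
    have : (0 : ℝ) < ε := by exact_mod_cast hε
    positivity
  set m : ℕ → ℝ≥0∞ := fun j => volume (ball (0 : E d) (e j / (4 * √d))) with hm
  have hmpos : ∀ j, 0 < m j := by
    intro j
    exact measure_ball_pos _ _ (div_pos (hepos j) (by positivity))
  obtain ⟨δ, hδ0, hδ⟩ := exists_between (hmpos 0)
  obtain ⟨D, hDc, hDA, hDsum⟩ := exists_compact_cover A hA δ hδ0.ne'
  have hfin : ∑' n, volume (D n) ≠ ∞ :=
    ne_top_of_le_ne_top (hδ.trans_le le_top).ne hDsum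
  -- tails are small
  have htail : Tendsto (fun n => ∑' k, volume (D (k + n))) atTop (𝓝 0) :=
    ENNReal.tendsto_sum_nat_add (fun n => volume (D n)) hfin
  have hev : ∀ j, ∀ᶠ n in atTop, ∑' k, volume (D (k + n)) < m (j + 1) := by
    intro j
    exact htail.eventually (gt_mem_nhds (hmpos (j + 1)))
  obtain ⟨φ, hφmono, hφ⟩ := extraction_forall_of_eventually hev
  -- the groups
  set L : ℕ → Set (E d) := fun j =>
    match j with
    | 0 => ⋃ n ∈ Finset.range (φ 0), D n
    | j + 1 => ⋃ n ∈ Finset.Ico (φ j) (φ (j + 1)), D n with hL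
  have hLc : ∀ j, IsCompact (L j) := by
    intro j
    cases j with
    | zero => exact (Finset.range (φ 0)).isCompact_biUnion (fun n _ => hDc n)
    | succ j => exact (Finset.Ico (φ j) (φ (j + 1))).isCompact_biUnion (fun n _ => hDc n)
  have hLvol : ∀ j, volume (L j) < m j := by
    intro j
    cases j with
    | zero =>
      calc volume (L 0) ≤ ∑ n ∈ Finset.range (φ 0), volume (D n) :=
            measure_biUnion_finset_le _ _
        _ ≤ ∑' n, volume (D n) := ENNReal.sum_le_tsum _
        _ ≤ δ := hDsum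
        _ < m 0 := hδ
    | succ j =>
      calc volume (L (j + 1)) ≤ ∑ n ∈ Finset.Ico (φ j) (φ (j + 1)), volume (D n) :=
            measure_biUnion_finset_le _ _
        _ = ∑ k ∈ Finset.range (φ (j + 1) - φ j), volume (D (k + φ j)) := by
            rw [Finset.sum_Ico_eq_sum_range]
            apply Finset.sum_congr rfl
            intro k _
            rw [add_comm]
        _ ≤ ∑' k, volume (D (k + φ j)) := ENNReal.sum_le_tsum _
        _ < m (j + 1) := hφ j
  have hcovL : A ⊆ ⋃ j, L j := by
    intro a ha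
    obtain ⟨n, hn⟩ := mem_iUnion.mp (hDA ha)
    have hex : ∃ j, n < φ j := ⟨n + 1, lt_of_lt_of_le (Nat.lt_succ_self n) (hφmono.le_apply)⟩
    set j := Nat.find hex with hj
    have hj1 : n < φ j := Nat.find_spec hex
    refine mem_iUnion.mpr ⟨j, ?_⟩
    rcases Nat.eq_zero_or_eq_succ_pred j with h0 | h0
    · rw [h0] at hj1 ⊢
      exact mem_biUnion (Finset.mem_coe.mpr (Finset.mem_range.mpr hj1)) hn
    · have h1 : φ (j - 1) ≤ n := by
        by_contra hlt
        push Not at hlt
        have := Nat.find_min' hex hlt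
        omega
      have h2 : j = (j - 1) + 1 := h0
      rw [h2] at hj1 ⊢
      exact mem_biUnion (Finset.mem_coe.mpr (Finset.mem_Ico.mpr ⟨h1, hj1⟩)) hn
  -- the strips
  have hex : ∀ j, ∃ f : E d → ℝ, IsPolyhedral f ∧ LipschitzWith (Real.toNNReal (e j)) f ∧
      L j ⊆ strip f := fun j => cover_compact hd (e j) (hepos j) (L j) (hLc j) (hLvol j)
  choose f hf1 hf2 hf3 using hex
  have h1 : gamma A ≤ ∑' j, width (strip (f j)) := by
    unfold gamma
    refine iInf_le_of_le (fun j => strip (f j)) ?_
    refine iInf_le_of_le (fun j => ⟨f j, hf1 j, rfl⟩) ?_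
    refine iInf_le_of_le ?_ le_rfl
    exact hcovL.trans (iUnion_mono hf3)
  have h2 : ∑' j, width (strip (f j)) ≤ ∑' j, 2 * ((Real.toNNReal (e j) : ℝ≥0) : ℝ≥0∞) :=
    ENNReal.tsum_le_tsum (fun j => width_strip_le (hf1 j) (hf2 j))
  have h3 : ∑' j, 2 * ((Real.toNNReal (e j) : ℝ≥0) : ℝ≥0∞) = ε := by
    have h4 : ∀ j, 2 * ((Real.toNNReal (e j) : ℝ≥0) : ℝ≥0∞) = ENNReal.ofReal (2 * e j) := by
      intro j
      rw [ENNReal.ofReal_mul (by norm_num)]
      simp [ENNReal.ofReal]
    simp_rw [h4]
    have h5 : HasSum (fun j => 2 * e j) (ε : ℝ) := by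
      have h6 := hasSum_geometric_two' (ε : ℝ)
      refine h6.congr_fun ?_
      intro j
      simp only [he]
      rw [pow_succ]
      field_simp
    rw [← ENNReal.ofReal_tsum_of_nonneg (fun j => by have := hepos j; positivity) h5.summable,
      h5.tsum_eq]
    simp
  calc gamma A ≤ _ := h1
    _ ≤ _ := h2
    _ = ε := h3

/-- **Result.** For every `d ≥ 2`, every set `A ⊆ ℝ^d` of Lebesgue (outer) measure zero
satisfies `γ(A) = 0`. -/
theorem result : ∀ d : ℕ, 2 ≤ d → ∀ A : Set (E d), volume A = 0 → gamma A = 0 :=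
  fun _ hd A hA => gamma_eq_zero (by omega) A hA

end Pool.Agent.Results.MP_0a22a9_gt.NullSetsAreGammaNull
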